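import Pool.Agent.Bootstrap.Final

/-!
# The maximum `r`-neighbour bootstrap percolation time on the hypercube is of order `2^n / n`

For every fixed `r ≥ 3` we determine `M(Q_n, r)` up to a constant factor, in all dimensions `n`.
-/

namespace Pool.Agent.Results.MP_df66b4_co.OrderOfMagnitude

open Pool.Agent.Bootstrap

/-- For every threshold `r ≥ 3`:
* `M(Q_n, r)` (defined as a supremum) is attained for all `n`;
* for all `n ≥ r` we have `2^(-(r+224)) · 2^n / n ≤ M(Q_n, r) ≤ (r+1)² · 2^n / n`;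
* `M(Q_n, r) = 0` for all `n < r`. -/
theorem result (r : ℕ) (hr : 3 ≤ r) :
    (∀ n : ℕ, IsGreatest {t | ∃ A : Set (Fin n → Fin 2), Percolates (hypercube n 2) r A ∧
      time (hypercube n 2) r A = t} (maxTime (hypercube n 2) r)) ∧
    (∀ n : ℕ, r ≤ n →
      (1 / 2 ^ (r + 224) : ℝ) * (2 ^ n / n) ≤ maxTime (hypercube n 2) r ∧
      (maxTime (hypercube n 2) r : ℝ) ≤ (r + 1) ^ 2 * (2 ^ n / n)) ∧
    (∀ n : ℕ, n < r → maxTime (hypercube n 2) r = 0) := by
  refine ⟨fun n => isGreatest_maxTime _ _, ?_, fun n hn => maxTime_small hn⟩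
  intro n hn
  constructor
  · have h1 : ((2 : ℝ) ^ n) ≤ 2 ^ (r + 224) * n * maxTime (hypercube n 2) r := by
      exact_mod_cast lower_bound hr hn
    have hn0 : (0 : ℝ) < n := by
      have : 0 < n := by omega
      exact_mod_cast this
    rw [one_div, ← mul_div_assoc, div_le_iff₀ hn0, inv_mul_le_iff₀ (by positivity)]
    calc (2 : ℝ) ^ n ≤ 2 ^ (r + 224) * n * maxTime (hypercube n 2) r := h1
      _ = _ := by ring
  · have := upper_bound (r := r) (n := n) (q := 2) (by omega) le_rfl hn
    exact_mod_cast this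

end Pool.Agent.Results.MP_df66b4_co.OrderOfMagnitude
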